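import Pool.Agent.Helper46.DC.Defs

set_option autoImplicit false

/-!
DC-3 of the project on disjoint cycles through specified vertices (MP_6bc104_co): the complex of
rooted forests and the full simplicial complex exist (`D ∘ D = 0`).
-/

namespace Pool.Agent.DC

open Finset

theorem DC3.two_add (a : ZMod 2) : a + a = 0 := by
  have h : ∀ a : ZMod 2, a + a = 0 := by decide
  exact h a

theorem DC3.sum_swap {β : Type} [Fintype β] [DecidableEq β] (c : Finset β → ZMod 2)
    (A : Finset β) :
    ∑ e ∈ Aᶜ, ∑ e' ∈ (insert e A)ᶜ, c (insert e' (insert e A)) = 0 := by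
  rw [Finset.sum_sigma']
  refine Finset.sum_involution (fun p _ => ⟨p.2, p.1⟩) ?_ ?_ ?_ ?_
  · rintro ⟨e, e'⟩ _
    simp only
    rw [Finset.insert_comm e e' A]
    exact DC3.two_add _
  · rintro ⟨e, e'⟩ h _ h2
    simp only [mem_sigma, mem_compl, mem_insert, not_or] at h
    simp only [Sigma.mk.injEq, heq_eq_eq] at h2
    exact h.2.1 h2.1
  · rintro ⟨e, e'⟩ h
    simp only [mem_sigma, mem_compl, mem_insert, not_or] at h ⊢
    exact ⟨h.2.2, fun h3 => h.2.1 h3.symm, h.1⟩
  · rintro ⟨e, e'⟩ _
    rfl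

theorem exists_simpCx (β : Type) [Fintype β] [DecidableEq β] :
    ∃ K : Cx (Finset β), IsSimp K := by
  refine ⟨{ deg := fun S => S.card
            D := fun c S => ∑ e ∈ Sᶜ, c (insert e S)
            D_add := ?_
            D_D := ?_
            D_hom := ?_
            D_zero := ?_ }, fun _ _ => rfl, fun _ => rfl⟩
  · intro c c'
    funext S
    simp [Finset.sum_add_distrib]
  · intro c
    funext S
    exact DC3.sum_swap c S
  · intro n c hc S hS
    obtain ⟨e, he, h⟩ := Finset.exists_ne_zero_of_sum_ne_zero hS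
    have h1 := hc _ h
    have h2 : e ∉ S := by simpa using he
    rw [Finset.card_insert_of_notMem h2] at h1
    omega
  · intro c hc
    funext S
    refine Finset.sum_eq_zero ?_
    intro e he
    by_contra h
    have h1 := hc _ h
    have h2 : e ∉ S := by simpa using he
    rw [Finset.card_insert_of_notMem h2] at h1
    omega

section Forest

variable {U ι : Type} [Fintype U] [DecidableEq U] [Fintype ι] [DecidableEq ι]

omit [Fintype U] [Fintype ι] in
theorem DC3.tot_insert {A : Finset (U × (U ⊕ ι))} (hA : Tot A) (e : U × (U ⊕ ι)) :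
    Tot (insert e A) := by
  intro u
  obtain ⟨x, hx⟩ := hA u
  exact ⟨x, Finset.mem_insert_of_mem hx⟩

omit [Fintype ι] [DecidableEq ι] in
theorem DC3.card_le {A : Finset (U × (U ⊕ ι))} (hA : Tot A) : Fintype.card U ≤ A.card := by
  have h : A.image Prod.fst = univ := by
    ext u
    simp only [mem_image, mem_univ, iff_true]
    obtain ⟨x, hx⟩ := hA u
    exact ⟨(u, x), hx, rfl⟩
  rw [← Finset.card_univ, ← h]
  exact Finset.card_image_le

theorem DC3.sum_cof_tot {A : Finset (U × (U ⊕ ι))} (hA : Tot A)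
    (c : Finset (U × (U ⊕ ι)) → ZMod 2) :
    ∑ B ∈ cof A, c B = ∑ e ∈ Aᶜ, c (insert e A) := by
  have h : cof A = Aᶜ.image (fun e => insert e A) := by
    unfold cof
    simp only [hA, if_true]
  rw [h, Finset.sum_image]
  intro e he e' he' h2
  have h1 : e ∉ A := by simpa using he
  have h3 : e ∈ insert e' A := by
    have h4 : insert e A = insert e' A := h2
    rw [← h4]
    exact Finset.mem_insert_self e A
  rcases Finset.mem_insert.1 h3 with h4 | h4
  · exact h4
  · exact absurd h4 h1

theorem DC3.cof_empty [Nonempty U] (B : Finset (U × (U ⊕ ι))) :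
    B ∈ cof (∅ : Finset (U × (U ⊕ ι))) ↔ (Tot B ∧ B.card = Fintype.card U) := by
  have h : ¬ Tot (∅ : Finset (U × (U ⊕ ι))) := by
    intro h
    obtain ⟨u⟩ := ‹Nonempty U›
    obtain ⟨x, hx⟩ := h u
    simp at hx
  unfold cof
  simp [h]

theorem DC3.cof_none {A : Finset (U × (U ⊕ ι))} (hA : ¬ Tot A) (hA' : A ≠ ∅) :
    cof A = ∅ := by
  unfold cof
  simp [hA, hA']

theorem DC3.fdeg_cof [Nonempty U] {A B : Finset (U × (U ⊕ ι))} (h : B ∈ cof A) :
    fdeg B = fdeg A + 1 := by
  have hU : 0 < Fintype.card U := Fintype.card_pos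
  by_cases hA : Tot A
  · have h1 : cof A = Aᶜ.image (fun e => insert e A) := by
      unfold cof
      simp only [hA, if_true]
    rw [h1] at h
    obtain ⟨e, he, rfl⟩ := Finset.mem_image.1 h
    have h2 : e ∉ A := by simpa using he
    have h3 := DC3.card_le hA
    unfold fdeg
    rw [Finset.card_insert_of_notMem h2, if_neg (by omega), if_neg (by omega)]
    omega
  · by_cases hA' : A = ∅
    · subst hA'
      rw [DC3.cof_empty] at h
      unfold fdeg
      rw [h.2, if_neg (by omega)]
      simp
    · rw [DC3.cof_none hA hA'] at h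
      simp at h

omit [Fintype ι] in
/-- the unique pair over `v` of a total set of minimal cardinality -/
theorem DC3.func {B : Finset (U × (U ⊕ ι))} (hB : Tot B) (hc : B.card = Fintype.card U)
    {v : U} {x x' : U ⊕ ι} (h : (v, x) ∈ B) (h' : (v, x') ∈ B) : x = x' := by
  by_contra hne
  have h1 : Tot (B.erase (v, x)) := by
    intro u
    by_cases hu : u = v
    · subst hu
      refine ⟨x', Finset.mem_erase.2 ⟨?_, h'⟩⟩
      intro h2
      exact hne (Prod.mk.inj h2).2.symm
    · obtain ⟨y, hy⟩ := hB u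
      refine ⟨y, Finset.mem_erase.2 ⟨?_, hy⟩⟩
      intro h2
      exact hu (Prod.mk.inj h2).1
  have h2 := DC3.card_le h1
  rw [Finset.card_erase_of_mem h] at h2
  have h3 : 0 < B.card := Finset.card_pos.2 ⟨_, h⟩
  omega

theorem DC3.sum_empty [Nonempty U] (c : Finset (U × (U ⊕ ι)) → ZMod 2) :
    ∑ B ∈ cof (∅ : Finset (U × (U ⊕ ι))), ∑ e ∈ Bᶜ, c (insert e B) = 0 := by
  classical
  rw [Finset.sum_sigma']
  -- the pair of `B` over `v`
  have hpair : ∀ (B : Finset (U × (U ⊕ ι))) (v : U), ∃ f : U × (U ⊕ ι),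
      Tot B → f ∈ B ∧ f.1 = v := by
    intro B v
    by_cases hB : Tot B
    · obtain ⟨x, hx⟩ := hB v
      exact ⟨(v, x), fun _ => ⟨hx, rfl⟩⟩
    · obtain ⟨u⟩ := ‹Nonempty U›
      exact ⟨(u, Sum.inl u), fun h => absurd h hB⟩
  choose f hf using hpair
  have huniq : ∀ (B : Finset (U × (U ⊕ ι))), Tot B → B.card = Fintype.card U →
      ∀ p ∈ B, f B p.1 = p := by
    intro B hB hc p hp
    have h1 := hf B p.1 hB
    obtain ⟨p1, p2⟩ := p
    have h2 : f B p1 = (p1, (f B p1).2) := Prod.ext h1.2 rfl
    have h3 : (p1, (f B p1).2) ∈ B := by rw [← h2]; exact h1.1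
    rw [h2, DC3.func hB hc h3 hp]
  -- the involution
  have key : ∀ (B : Finset (U × (U ⊕ ι))) (e : U × (U ⊕ ι)), Tot B →
      B.card = Fintype.card U → e ∉ B →
      Tot ((insert e B).erase (f B e.1)) ∧
      ((insert e B).erase (f B e.1)).card = Fintype.card U ∧
      f B e.1 ∉ (insert e B).erase (f B e.1) ∧
      insert (f B e.1) ((insert e B).erase (f B e.1)) = insert e B ∧
      f ((insert e B).erase (f B e.1)) (f B e.1).1 = e ∧
      ((insert (f B e.1) ((insert e B).erase (f B e.1)))).erase e = B := by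
    intro B e hB hc he
    have h1 := hf B e.1 hB
    have hne : f B e.1 ≠ e := fun h => he (h ▸ h1.1)
    have hmem : f B e.1 ∈ insert e B := Finset.mem_insert_of_mem h1.1
    have hT : Tot ((insert e B).erase (f B e.1)) := by
      intro u
      by_cases hu : u = e.1
      · refine ⟨e.2, Finset.mem_erase.2 ⟨?_, ?_⟩⟩
        · subst hu
          exact fun h => hne h.symm
        · subst hu
          exact Finset.mem_insert_self _ _
      · obtain ⟨y, hy⟩ := hB u
        refine ⟨y, Finset.mem_erase.2 ⟨?_, Finset.mem_insert_of_mem hy⟩⟩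
        intro h
        rw [← h] at h1
        exact hu h1.2
    have hcard : ((insert e B).erase (f B e.1)).card = Fintype.card U := by
      rw [Finset.card_erase_of_mem hmem, Finset.card_insert_of_notMem he]
      omega
    have hins : insert (f B e.1) ((insert e B).erase (f B e.1)) = insert e B :=
      Finset.insert_erase hmem
    refine ⟨hT, hcard, Finset.notMem_erase _ _, hins, ?_, ?_⟩
    · rw [h1.2]
      apply huniq _ hT hcard
      exact Finset.mem_erase.2 ⟨hne.symm, Finset.mem_insert_self _ _⟩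
    · rw [hins]
      exact Finset.erase_insert he
  refine Finset.sum_involution
    (fun p _ => ⟨(insert p.2 p.1).erase (f p.1 p.2.1), f p.1 p.2.1⟩) ?_ ?_ ?_ ?_
  · rintro ⟨B, e⟩ h
    simp only [mem_sigma, mem_compl, DC3.cof_empty] at h
    obtain ⟨k1, k2, k3, k4, k5, k6⟩ := key B e h.1.1 h.1.2 h.2
    simp only
    rw [k4]
    exact DC3.two_add _
  · rintro ⟨B, e⟩ h _ h2
    simp only [mem_sigma, mem_compl, DC3.cof_empty] at h
    simp only [Sigma.mk.injEq, heq_eq_eq] at h2
    have h1 := hf B e.1 h.1.1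
    rw [h2.2] at h1
    exact h.2 h1.1
  · rintro ⟨B, e⟩ h
    simp only [mem_sigma, mem_compl, DC3.cof_empty] at h
    obtain ⟨k1, k2, k3, k4, k5, k6⟩ := key B e h.1.1 h.1.2 h.2
    simp only [mem_sigma, mem_compl, DC3.cof_empty]
    exact ⟨⟨k1, k2⟩, k3⟩
  · rintro ⟨B, e⟩ h
    simp only [mem_sigma, mem_compl, DC3.cof_empty] at h
    obtain ⟨k1, k2, k3, k4, k5, k6⟩ := key B e h.1.1 h.1.2 h.2
    simp only [Sigma.mk.injEq, heq_eq_eq]
    rw [k5]
    exact ⟨k6, rfl⟩

end Forest

theorem exists_forestCx (U ι : Type) [Fintype U] [DecidableEq U] [Fintype ι] [DecidableEq ι]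
    [Nonempty U] : ∃ K : Cx (Finset (U × (U ⊕ ι))), IsForest K := by
  refine ⟨{ deg := fdeg
            D := fun c A => ∑ B ∈ cof A, c B
            D_add := ?_
            D_D := ?_
            D_hom := ?_
            D_zero := ?_ }, fun _ _ => rfl, fun _ => rfl⟩
  · intro c c'
    funext A
    simp [Finset.sum_add_distrib]
  · intro c
    funext A
    simp only [Pi.zero_apply]
    by_cases hA : Tot A
    · rw [DC3.sum_cof_tot hA (fun B => ∑ C ∈ cof B, c C)]
      rw [← DC3.sum_swap c A]
      refine Finset.sum_congr rfl ?_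
      intro e _
      exact DC3.sum_cof_tot (DC3.tot_insert hA e) c
    · by_cases hA' : A = ∅
      · subst hA'
        rw [← DC3.sum_empty c]
        refine Finset.sum_congr rfl ?_
        intro B hB
        rw [DC3.cof_empty] at hB
        exact DC3.sum_cof_tot hB.1 c
      · rw [DC3.cof_none hA hA']
        simp
  · intro n c hc A hA
    obtain ⟨B, hB, h⟩ := Finset.exists_ne_zero_of_sum_ne_zero hA
    have h1 := hc _ h
    rw [DC3.fdeg_cof hB] at h1
    omega
  · intro c hc
    funext A
    refine Finset.sum_eq_zero ?_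
    intro B hB
    by_contra h
    have h1 := hc _ h
    rw [DC3.fdeg_cof hB] at h1
    omega

end Pool.Agent.DC
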